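import Pool.Agent.V7H21.TF.Core

/-!
# The value of `T^7 □^7 F^6` in Toads and Frogs is neither `1` nor `1*`
-/

set_option autoImplicit false
set_option maxRecDepth 100000

namespace Pool.Agent.Results.MP_a6e7b1_co.SeventhPositionH21

open Pool.Agent.V7H21.TF Pool.Agent.V7H21.TF.Cell Pool.Agent.V7H21.TF.Game

/-- Codes of the sets of squares of the toads that Left uses. -/
def data : List ℕ :=
  [16160, 16144, 16136, 16132, 16008, 16004, 15944, 15940, 15938, 15908, 67552, 15906, 15892,
  15652, 67536, 15905, 15890, 15524, 67528, 34768, 15889, 15649, 67496, 34760, 18384, 15881,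
  15878, 15633, 15500, 67492, 34756, 34728, 18376, 15877, 15625, 15436, 10192, 67490, 34724,
  18344, 15875, 15621, 15497, 10184, 67474, 34722, 34708, 18340, 15619, 15433, 10152, 4048,
  34706, 34700, 18338, 18324, 15491, 15401, 15398, 10148, 10136, 4040, 34698, 18322, 18316,
  15427, 15397, 15385, 14979, 10146, 10132, 4036, 4008, 34697, 34694, 18314, 15395, 15381,
  15374, 14915, 14873, 14723, 10130, 10124, 4004, 3992, 34693, 34630, 18313, 18310, 15379,
  15373, 14659, 13699, 10122, 3988, 34691, 34598, 18309, 18246, 14867, 14861, 14627, 14531,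
  13187, 10121, 10118, 3986, 3980, 66040, 34582, 18307, 18214, 14611, 14605, 14499, 13507,
  13123, 10117, 10054, 3978, 3916, 66036, 34574, 18243, 18198, 14603, 14483, 14477, 14393,
  13091, 10115, 10022, 3977, 3974, 3914, 66028, 34573, 18211, 18190, 14475, 14419, 14413,
  14389, 13075, 12739, 10051, 10006, 3973, 3910, 3882, 3786, 66012, 34571, 18195, 18189, 14471,
  14411, 14381, 13067, 12707, 10019, 9998, 3971, 3878, 3782, 65980, 34567, 33244, 18187, 14407,
  14379, 13447, 13063, 12691, 10003, 9997, 3907, 3862, 3750, 3484, 65978, 33212, 18183, 14375,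
  13383, 12935, 12683, 9995, 3875, 3861, 3854, 3734, 3482, 65974, 33210, 18055, 16828, 13351,
  12871, 12679, 9991, 3859, 3853, 3670, 3478, 2982, 65966, 33206, 17991, 16826, 12839, 12615,
  9863, 3851, 3731, 3662, 3470, 2966, 33198, 17959, 16822, 12823, 12583, 9799, 3847, 3723,
  3661, 3469, 2958, 1756, 33182, 16814, 12567, 9767, 3719, 3659, 3467, 2957, 1754, 33181,
  16798, 12559, 9751, 4534, 3655, 3627, 3463, 3277, 2955, 1750, 16797, 12431, 9743, 4526, 3623,
  3399, 3275, 2951, 1742, 16795, 9487, 4510, 3607, 3367, 3271, 2887, 1741, 16791, 9359, 4509,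
  3599, 3351, 3239, 2855, 1739, 16783, 4507, 3343, 3223, 2839, 1735, 8591, 4503, 3215, 3159,
  2831, 1703, 4495, 3151, 2703, 1687, 3119, 2447, 1679, 3103, 2383, 1423, 2591, 2351, 911,
  2335, 847, 2207, 815, 2143, 799, 2111, 671, 607, 575, 319, 191, 127]

lemma data_ok : run 13 20 127 191 8064 data [] = true := by decide +kernel

lemma pos_eq : dec (bd 20 127) 8064 = start 7 := by decide

lemma pos_move : LeftMove (start 7) (dec (bd 20 191) 8064) := by
  have h : dec (bd 20 191) 8064 = List.replicate 6 T ++ [E, T] ++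
      (List.replicate 6 E ++ List.replicate 6 F) := by decide
  have h' : start 7 = List.replicate 6 T ++ [T, E] ++
      (List.replicate 6 E ++ List.replicate 6 F) := by decide
  rw [h, h']
  exact LeftMove.slide _ _

lemma main : RL 1 (start 7) ∧ LW 1 (start 7) := by
  obtain ⟨h1, h2⟩ := run_sound 13 20 127 191 8064 data [] (by simp) data_ok
  rw [pos_eq] at h1
  exact ⟨h1, LW_of pos_move h2⟩

/-- The value of the position `T^7 □^7 F^6` is neither `1` nor `1* = 1 + *`; it is greater than `1`:
Left wins `T^7 □^7 F^6 - 1` whoever moves first. -/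
theorem result :
    ¬ Equal (value (start 7)) one ∧ ¬ Equal (value (start 7)) (add one star) ∧
    (wins (add (value (start 7)) (neg one))).1 ∧
    ¬ (wins (add (value (start 7)) (neg one))).2 := by
  obtain ⟨h1, h2⟩ := main
  have t1 : Tempo 1 (neg one) := by
    intro j
    exact inferInstanceAs (IsEmpty Empty)
  have t2 : Tempo 1 (neg (add one zero)) := by
    rintro (j | j)
    · refine ⟨?_⟩
      rintro (i | i)
      · exact i.elim
      · exact i.elim
    · exact j.elim
  refine ⟨fun h => h.1 (h2 _ t1), fun h => h.1 ?_, h2 _ t1, h1 _ t1⟩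
  have h3 : ¬ (wins (add (value (start 7)) (neg (add one zero)))).2 := h1 _ t2
  have key : ∀ G : Game, ¬ (wins (add G (neg (add one zero)))).2 →
      (wins (add G (neg (add one star)))).1 := by
    rintro ⟨α, β, L, R⟩ hG
    exact ⟨Sum.inr (Sum.inr ()), hG⟩
  exact key _ h3

end Pool.Agent.Results.MP_a6e7b1_co.SeventhPositionH21
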